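import Pool.Agent.H664.EX.Stm2
set_option autoImplicit false
namespace Pool.Agent.H190.EX

/-- a prime ideal of `A[X]` with trivial intersection with `A` is principal -/
theorem principal_aux {A : Type} [CommRing A] [IsDomain A] [UniqueFactorizationMonoid A]
    (q : Ideal (Polynomial A)) (hq : q.IsPrime) (hq0 : q ≠ ⊥)
    (hA : ∀ a : A, Polynomial.C a ∈ q → a = 0) :
    ∃ P : Polynomial A, Irreducible P ∧ ∀ f, f ∈ q ↔ P ∣ f := by
  obtain ⟨P, hPq, hP⟩ := Ideal.IsPrime.exists_mem_prime_of_ne_bot hq hq0
  refine ⟨P, hP.irreducible, fun f => ⟨fun hf => ?_, fun h => Ideal.mem_of_dvd q h hPq⟩⟩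
  have hdeg : P.natDegree ≠ 0 := by
    intro h
    obtain ⟨a, rfl⟩ := Polynomial.natDegree_eq_zero.1 h
    have := hA a hPq
    rw [this] at hP
    exact hP.ne_zero (by simp)
  have hprim : P.IsPrimitive := hP.irreducible.isPrimitive hdeg
  let K := FractionRing A
  have : Nonempty (NormalizedGCDMonoid A) := inferInstance
  have hirr : Irreducible (P.map (algebraMap A K)) :=
    (Polynomial.IsPrimitive.irreducible_iff_irreducible_map_fraction_map (K := K) hprim).1
      hP.irreducible
  have hinj : Function.Injective (Polynomial.map (algebraMap A K)) :=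
    Polynomial.map_injective _ (IsFractionRing.injective A K)
  have hne : ∀ b ∈ nonZeroDivisors A, b ≠ 0 := fun b hb => nonZeroDivisors.ne_zero hb
  have hdd : ∀ d : A, d ≠ 0 → ¬ P ∣ Polynomial.C d := by
    intro d hd h
    have h1 := Polynomial.natDegree_le_of_dvd h (by simpa using hd)
    rw [Polynomial.natDegree_C] at h1
    omega
  rcases EuclideanDomain.dvd_or_coprime _ (f.map (algebraMap A K)) hirr with h | h
  · obtain ⟨g, hg⟩ := h
    obtain ⟨b, hb, hbg⟩ := IsLocalization.integerNormalization_spec (nonZeroDivisors A) g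
    set G := IsLocalization.integerNormalization (nonZeroDivisors A) g
    have e : Polynomial.C b * f = P * G := by
      apply hinj
      rw [Polynomial.map_mul, Polynomial.map_mul, hbg, hg, Polynomial.map_C, Algebra.smul_def]
      rw [Polynomial.algebraMap_apply]
      ring
    rcases hP.dvd_or_dvd (Dvd.intro _ e.symm) with h1 | h1
    · exact absurd h1 (hdd b (hne b hb))
    · exact h1
  · exfalso
    obtain ⟨u, v, huv⟩ := h
    obtain ⟨b, hb, hbu⟩ := IsLocalization.integerNormalization_spec (nonZeroDivisors A) u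
    obtain ⟨b', hb', hbv⟩ := IsLocalization.integerNormalization_spec (nonZeroDivisors A) v
    set U := IsLocalization.integerNormalization (nonZeroDivisors A) u
    set V := IsLocalization.integerNormalization (nonZeroDivisors A) v
    have e : Polynomial.C b' * U * P + Polynomial.C b * V * f = Polynomial.C (b * b') := by
      apply hinj
      rw [Polynomial.map_add, Polynomial.map_mul, Polynomial.map_mul, Polynomial.map_mul,
        Polynomial.map_mul, hbu, hbv, Polynomial.map_C, Polynomial.map_C, Polynomial.map_C,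
        Algebra.smul_def, Algebra.smul_def,
        Polynomial.algebraMap_apply, Polynomial.algebraMap_apply, map_mul, Polynomial.C_mul]
      linear_combination Polynomial.C ((algebraMap A K) b) * Polynomial.C ((algebraMap A K) b') * huv
    have hmem : Polynomial.C (b * b') ∈ q := by
      rw [← e]
      exact q.add_mem (q.mul_mem_left _ hPq) (q.mul_mem_left _ hf)
    exact mul_ne_zero (hne b hb) (hne b' hb') (hA _ hmem)


open MvPolynomial Pool.Agent.Q72.EG Pool.Agent.H664.EX

/-- the ideal is determined by the points of the variety -/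
theorem mem_iff {n : ℕ} {I : Ideal (MvPolynomial (Fin n ⊕ Fin n) ℂ)}
    {V : Set (Fin n ⊕ Fin n → ℂ)} (hV : IsVar I V) (F : MvPolynomial (Fin n ⊕ Fin n) ℂ) :
    (∀ p ∈ V, eval p F = 0) ↔ F ∈ I := by
  constructor
  · intro h
    have hI := hV.prime
    have h1 : F * ∏ j : Fin n, X (Sum.inr j) ∈ I := by
      have h2 : F * ∏ j : Fin n, X (Sum.inr j) ∈ vanishingIdeal ℂ (zeroLocus ℂ I) := by
        rw [mem_vanishingIdeal_iff]
        intro x hx
        rw [mem_zeroLocus_iff] at hx
        rw [map_mul, map_prod]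
        by_cases hz : ∀ j : Fin n, x (Sum.inr j) ≠ 0
        · have h3 : x ∈ V := by
            rw [hV.points]
            exact ⟨fun f hf => by simpa [aeval_eq_eval] using hx f hf, hz⟩
          have h4 := h x h3
          have h5 : aeval x F = 0 := by simpa [aeval_eq_eval] using h4
          rw [h5, zero_mul]
        · push Not at hz
          obtain ⟨j, hj⟩ := hz
          have : ∏ i : Fin n, aeval x (X (Sum.inr i) : MvPolynomial (Fin n ⊕ Fin n) ℂ) = 0 :=
            Finset.prod_eq_zero (Finset.mem_univ j) (by rw [aeval_X, hj])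
          rw [this, mul_zero]
      rw [vanishingIdeal_zeroLocus_eq_radical, hI.radical] at h2
      exact h2
    rcases hI.mem_or_mem h1 with h2 | h2
    · exact h2
    · exfalso
      rw [hI.prod_mem_iff] at h2
      obtain ⟨j, -, hj⟩ := h2
      obtain ⟨p, hp⟩ := hV.nonempty
      rw [hV.points] at hp
      have := hp.1 _ hj
      rw [eval_X] at this
      exact hp.2 j this
  · intro h p hp
    rw [hV.points] at hp
    exact hp.1 F h

theorem finSuccEquiv_rename_succ' (n : ℕ) (a : MvPolynomial (Fin n) ℂ) :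
    finSuccEquiv ℂ n (rename Fin.succ a) = Polynomial.C a := by
  induction a using MvPolynomial.induction_on with
  | C r => simp [finSuccEquiv_apply]
  | add p q hp hq => rw [map_add, map_add, hp, hq, Polynomial.C_add]
  | mul_X p m hp => rw [map_mul, map_mul, hp, rename_X, finSuccEquiv_X_succ, Polynomial.C_mul]

theorem proj : S_proj := by
  intro I V hV hdep hind
  obtain ⟨i, j, hij, hind⟩ := hind
  obtain ⟨k, hki, hkj⟩ : ∃ k : Fin 3, k ≠ i ∧ k ≠ j := by
    have : ∀ i j : Fin 3, ∃ k : Fin 3, k ≠ i ∧ k ≠ j := by decide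
    exact this i j
  have hσ : Function.Bijective ![k, i, j] := by
    rw [← Finite.injective_iff_bijective]
    intro a b hab
    fin_cases a <;> fin_cases b <;> simp_all
  let σ : Equiv.Perm (Fin 3) := Equiv.ofBijective ![k, i, j] hσ
  have hI := hV.prime
  let e : MvPolynomial (Fin 3) ℂ ≃ₐ[ℂ] Polynomial (MvPolynomial (Fin 2) ℂ) :=
    (renameEquiv ℂ σ.symm).trans (finSuccEquiv ℂ 2)
  have heC : ∀ a : MvPolynomial (Fin 2) ℂ, e.symm (Polynomial.C a) =
      rename (fun l : Fin 2 => σ l.succ) a := by
    intro a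
    rw [AlgEquiv.symm_apply_eq]
    show _ = finSuccEquiv ℂ 2 (rename σ.symm (rename (fun l : Fin 2 => σ l.succ) a))
    rw [rename_rename]
    have : (σ.symm ∘ fun l : Fin 2 => σ l.succ) = Fin.succ := by
      funext l
      simp
    rw [this, finSuccEquiv_rename_succ']
  let q : Ideal (Polynomial (MvPolynomial (Fin 2) ℂ)) :=
    Ideal.comap ((rename Sum.inl : MvPolynomial (Fin 3) ℂ →ₐ[ℂ]
      MvPolynomial (Fin 3 ⊕ Fin 3) ℂ).toRingHom.comp (e.symm : Polynomial (MvPolynomial (Fin 2) ℂ) →+*
        MvPolynomial (Fin 3) ℂ)) I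
  have hqm : ∀ f, f ∈ q ↔ rename Sum.inl (e.symm f) ∈ I := fun f => Iff.rfl
  have hq : q.IsPrime := Ideal.comap_isPrime _ _
  have hq0 : q ≠ ⊥ := by
    intro h0
    apply hdep
    intro f hf hfV
    obtain ⟨g, hg⟩ := exists_rename_eq_of_vars_subset_range f (Sum.inl : Fin 3 → Fin 3 ⊕ Fin 3)
      Sum.inl_injective (by
        intro x hx
        have := hf hx
        simp only [Finset.mem_insert, Finset.mem_singleton] at this
        rcases this with rfl | rfl | rfl <;> exact ⟨_, rfl⟩)
    have h1 : e g ∈ q := by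
      rw [hqm, AlgEquiv.symm_apply_apply, hg]
      exact (mem_iff hV f).1 hfV
    rw [h0, Ideal.mem_bot, EmbeddingLike.map_eq_zero_iff] at h1
    rw [← hg, h1, map_zero]
  have hA : ∀ a : MvPolynomial (Fin 2) ℂ, Polynomial.C a ∈ q → a = 0 := by
    intro a ha
    rw [hqm, heC, rename_rename] at ha
    have hinj : Function.Injective (Sum.inl ∘ fun l : Fin 2 => σ l.succ :
        Fin 2 → Fin 3 ⊕ Fin 3) :=
      Sum.inl_injective.comp (σ.injective.comp (Fin.succ_injective _))
    apply rename_injective _ hinj
    rw [map_zero]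
    apply hind
    · intro x hx
      have := vars_rename _ _ hx
      rw [Finset.mem_image] at this
      obtain ⟨l, -, rfl⟩ := this
      fin_cases l
      · show Sum.inl (![k, i, j] 1) ∈ _
        simp
      · show Sum.inl (![k, i, j] 2) ∈ _
        simp
    · exact (mem_iff hV _).2 ha
  obtain ⟨P, hP, hPq⟩ := principal_aux q hq hq0 hA
  refine ⟨e.symm P, ?_, fun f => ?_⟩
  · exact (MulEquiv.irreducible_iff (e.symm : Polynomial (MvPolynomial (Fin 2) ℂ) ≃*
      MvPolynomial (Fin 3) ℂ)).2 hP
  · have h1 : (∀ p ∈ V, eval (fun l => p (Sum.inl l)) f = 0) ↔ rename Sum.inl f ∈ I := by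
      rw [← mem_iff hV]
      refine forall₂_congr fun p _ => ?_
      rw [eval_rename]
      rfl
    rw [h1]
    have h2 := hPq (e f)
    rw [hqm, AlgEquiv.symm_apply_apply] at h2
    rw [h2]
    constructor
    · rintro ⟨g, hg⟩
      refine ⟨e.symm g, ?_⟩
      rw [← map_mul, ← hg, AlgEquiv.symm_apply_apply]
    · rintro ⟨g, rfl⟩
      rw [map_mul, AlgEquiv.apply_symm_apply]
      exact dvd_mul_right _ _

end Pool.Agent.H190.EX
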